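import Pool.Agent.N348.LE.Tab

/-!
A version of the bit for evaluation by the kernel: the theorem `bit_RT`.
-/

set_option autoImplicit false

namespace Pool.Agent.N348.LE

open Finset Pool.Agent.N367.LE

/-! ### bits of masks -/

theorem bit_zero (m : ℕ) (b : Bool) :
    (Nat.add (Nat.mul 2 m) (Bool.rec 0 1 b)).testBit 0 = b := by
  have h : Nat.add (Nat.mul 2 m) (Bool.rec 0 1 b) = 2 * m + Bool.rec 0 1 b := rfl
  rw [h, Nat.testBit_zero]
  cases b
  · exact decide_eq_false (by omega : ¬ (2 * m + 0) % 2 = 1)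
  · exact decide_eq_true (by omega : (2 * m + 1) % 2 = 1)

theorem bit_succ (m j : ℕ) (b : Bool) :
    (Nat.add (Nat.mul 2 m) (Bool.rec 0 1 b)).testBit (j + 1) = m.testBit j := by
  have h : Nat.add (Nat.mul 2 m) (Bool.rec 0 1 b) = 2 * m + Bool.rec 0 1 b := rfl
  rw [h, Nat.testBit_succ]
  congr 1
  cases b
  · have : (2 * m + 0) / 2 = m := by omega
    exact this
  · have : (2 * m + 1) / 2 = m := by omega
    exact this

theorem mskL_testBit (f : ℕ → Bool) (L : List ℕ) : ∀ j < L.length,
    (mskL f L).testBit j = f (L.getD j 0) := by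
  induction L with
  | nil => exact fun j hj => absurd hj (Nat.not_lt_zero _)
  | cons l L ih =>
    intro j hj
    cases j with
    | zero => exact bit_zero _ _
    | succ j => exact (bit_succ _ _ _).trans (ih j (Nat.lt_of_succ_lt_succ hj))

theorem msk_testBit (e : ℕ → Bool) (L : List ℕ) : ∀ j < L.length,
    (msk (L.map e)).testBit j = e (L.getD j 0) := by
  induction L with
  | nil => exact fun j hj => absurd hj (Nat.not_lt_zero _)
  | cons l L ih =>
    intro j hj
    cases j with
    | zero => exact bit_zero _ _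
    | succ j => exact (bit_succ _ _ _).trans (ih j (Nat.lt_of_succ_lt_succ hj))

theorem mskn_testBit (e : ℕ → Bool) (L : List ℕ) : ∀ j < L.length,
    (mskn (L.map e)).testBit j = !e (L.getD j 0) := by
  induction L with
  | nil => exact fun j hj => absurd hj (Nat.not_lt_zero _)
  | cons l L ih =>
    have h0 : mskn ((l :: L).map e) =
        Nat.add (Nat.mul 2 (mskn (L.map e))) (Bool.rec 0 1 (!e l)) := by
      rw [List.map_cons]
      unfold mskn
      cases e l <;> rfl
    intro j hj
    rw [h0]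
    cases j with
    | zero => exact bit_zero _ _
    | succ j => exact (bit_succ _ _ _).trans (ih j (Nat.lt_of_succ_lt_succ hj))

theorem row_ss (m c j : ℕ) (hc : c < 4) :
    (Nat.add (Nat.mul 4 m) c).testBit (j + 2) = m.testBit j := by
  have h : Nat.add (Nat.mul 4 m) c = 4 * m + c := rfl
  rw [h, Nat.testBit_succ, Nat.testBit_succ]
  congr 1
  omega

theorem row_zero (m : ℕ) (b : Bool) :
    (Nat.add (Nat.mul 4 m) (Bool.rec 2 1 b)).testBit 0 = b := by
  have h : Nat.add (Nat.mul 4 m) (Bool.rec 2 1 b) = 4 * m + Bool.rec 2 1 b := rfl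
  rw [h, Nat.testBit_zero]
  cases b
  · exact decide_eq_false (by omega : ¬ (4 * m + 2) % 2 = 1)
  · exact decide_eq_true (by omega : (4 * m + 1) % 2 = 1)

theorem row_one (m : ℕ) (b : Bool) :
    (Nat.add (Nat.mul 4 m) (Bool.rec 2 1 b)).testBit 1 = !b := by
  have h : Nat.add (Nat.mul 4 m) (Bool.rec 2 1 b) = 4 * m + Bool.rec 2 1 b := rfl
  rw [h, Nat.testBit_succ, Nat.testBit_zero]
  cases b
  · exact decide_eq_true (by omega : (4 * m + 2) / 2 % 2 = 1)
  · exact decide_eq_false (by omega : ¬ (4 * m + 1) / 2 % 2 = 1)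

theorem row_lt (b : Bool) : (Bool.rec 2 1 b : ℕ) < 4 := by cases b <;> decide

/-! ### the symbols -/

theorem sv_eq {δ : ℤ} (hδ : δ = 8 ∨ δ = -8) {b l : ℕ} (hb : b.Prime) (hl : l.Prime)
    (hbl : b ≠ l) : sv (decide (δ = 8)) b l = decide (sval δ b l = -1) := by
  unfold sv sval
  by_cases h2 : b = 2
  · subst h2
    have hodd : l % 2 = 1 := by
      rcases hl.eq_two_or_odd with h | h
      · exact absurd h.symm hbl
      · exact h
    have hz : ((l : ℤ) : ZMod 8) = ((l % 8 : ℕ) : ZMod 8) := by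
      rw [Int.cast_natCast]
      exact (ZMod.natCast_mod l 8).symm
    have hl8 : l % 8 < 8 := Nat.mod_lt _ (by norm_num)
    have h3 : Nat.mod l 8 = l % 8 := rfl
    have h4 : Nat.beq 2 2 = true := rfl
    have hodd8 : (l % 8) % 2 = 1 := by omega
    have red : ∀ x y : Bool, (Bool.rec x y true : Bool) = y := fun _ _ => rfl
    rw [if_pos rfl, hz, h3, h4, red (Nat.beq (Nat.mod (Nat.pow l (Nat.div 2 2)) 2) (Nat.sub 2 1))]
    rcases hδ with rfl | rfl
    · rw [if_pos rfl]
      generalize l % 8 = r at *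
      interval_cases r <;> first | omega | decide
    · rw [if_neg (by norm_num)]
      generalize l % 8 = r at *
      interval_cases r <;> first | omega | decide
  · have h4 : Nat.beq b 2 = false := by
      rw [← Bool.not_eq_true, Nat.beq_eq]
      exact h2
    rw [if_neg h2, h4]
    have := Fact.mk hb
    have hb3 : 3 ≤ b := by
      have := hb.two_le
      omega
    have h5 : Nat.mod (Nat.pow l (Nat.div b 2)) b = l ^ (b / 2) % b := rfl
    have h6 : Nat.sub b 1 = b - 1 := rfl
    change Nat.beq (Nat.mod (Nat.pow l (Nat.div b 2)) b) (Nat.sub b 1) = _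
    rw [h5, h6, ← jacobiSym.legendreSym.to_jacobiSym]
    have h7 := legendreSym.eq_pow b (l : ℤ)
    rw [Int.cast_natCast] at h7
    have h8 : ((l : ℤ) : ZMod b) ≠ 0 := by
      rw [Int.cast_natCast, Ne, ZMod.natCast_eq_zero_iff]
      intro h
      exact hbl ((Nat.prime_dvd_prime_iff_eq hb hl).1 h)
    have h9 : (l ^ (b / 2) % b = b - 1) ↔ ((l : ZMod b) ^ (b / 2) = -1) := by
      rw [← Nat.cast_pow]
      constructor
      · intro h
        rw [← ZMod.natCast_mod, h, Nat.cast_sub (by omega), ZMod.natCast_self, Nat.cast_one,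
          zero_sub]
      · intro h
        have h10 : ((l ^ (b / 2) : ℕ) : ZMod b) = ((b - 1 : ℕ) : ZMod b) := by
          rw [h, Nat.cast_sub (by omega), ZMod.natCast_self, Nat.cast_one, zero_sub]
        have h11 := (ZMod.natCast_eq_natCast_iff' _ _ _).1 h10
        rw [h11]
        exact Nat.mod_eq_of_lt (by omega)
    have h10 : (l : ZMod b) ^ (b / 2) = -1 ↔ legendreSym b l = -1 := by
      rw [← h7]
      rcases legendreSym.eq_one_or_neg_one b h8 with h | h
      · rw [h]
        constructor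
        · intro h11
          exfalso
          have : Fact (2 < b) := ⟨by omega⟩
          rw [Int.cast_one] at h11
          exact ZMod.neg_one_ne_one h11.symm
        · intro h11
          exact absurd h11 (by norm_num)
      · rw [h]
        simp
    rw [Bool.eq_iff_iff, Nat.beq_eq, decide_eq_true_eq]
    exact h9.trans h10

theorem sgk_eq {δ : ℤ} (hδ : δ = 8 ∨ δ = -8) {b : ℕ} (hb : b.Prime) :
    sgk (decide (δ = 8)) b = sgL δ b := by
  unfold sgk sgL
  have h1 : ¬ (b = 0 ∨ b = 1) := by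
    have := hb.two_le
    omega
  rw [if_neg h1]
  by_cases h2 : b = 2
  · subst h2
    rcases hδ with rfl | rfl <;> decide
  · have h4 : Nat.beq b 2 = false := by
      rw [← Bool.not_eq_true, Nat.beq_eq]
      exact h2
    rw [if_neg h2, h4]
    change Nat.beq (Nat.mod b 4) 3 = _
    rw [Bool.eq_iff_iff, Nat.beq_eq, decide_eq_true_eq]
    exact Iff.rfl

theorem d8_eq {δ : ℤ} (hδ : δ = 8 ∨ δ = -8) :
    (Int.rec (fun _ => true) (fun _ => false) δ : Bool) = decide (δ = 8) := by
  rcases hδ with rfl | rfl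
  · rfl
  · rfl

/-! ### the items -/

theorem cnt_eq (L : List ℕ) : cnt L = L.length + 2 := by
  induction L with
  | nil => rfl
  | cons l L ih =>
    have h : cnt (l :: L) = cnt L + 1 := rfl
    rw [h, ih, List.length_cons]

theorem mkQ_good (d8 : Bool) (M : List ℕ) (t : ℕ) (sb : ℕ → ℕ → Bool) (sg : ℕ → Bool)
    (e : ℕ → Bool) : ∀ (L : List ℕ) (k : ℕ) (acc : Q), GoodQ t sb sg k acc →
    (∀ i < L.length, (∀ j < t, j ≠ k + i →
      (Nat.add (Nat.mul 4 (mskL (sv d8 (L.getD i 0)) M)) (Bool.rec 2 1 (e (L.getD i 0)))).testBit j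
        = sb (k + i) j) ∧ sgk d8 (L.getD i 0) = sg (k + i)) →
    GoodQ t sb sg (k + L.length) (mkQ d8 M L (L.map e) (2 ^ k) acc) := by
  intro L
  induction L with
  | nil => exact fun k acc h _ => h
  | cons l L ih =>
    intro k acc hacc h
    have h0 := h 0 (Nat.succ_pos _)
    have h1 : mkQ d8 M (l :: L) ((l :: L).map e) (2 ^ k) acc =
        mkQ d8 M L (L.map e) (2 ^ (k + 1)) (Q.cons (2 ^ k)
          (Nat.add (Nat.mul 4 (mskL (sv d8 l) M)) (Bool.rec 2 1 (e l))) (sgk d8 l) acc) := by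
      rw [pow_succ, mul_comm (2 ^ k) 2]
      rfl
    have h2 : k + (l :: L).length = (k + 1) + L.length := by
      rw [List.length_cons]
      omega
    rw [h1, h2]
    apply ih
    · exact ⟨rfl, h0.1, h0.2, hacc⟩
    · intro i hi
      have h3 := h (i + 1) (Nat.succ_lt_succ hi)
      have h4 : k + (i + 1) = k + 1 + i := by omega
      rw [h4] at h3
      exact h3

/-- labels of the positions -/
def lab (L : List ℕ) : ℕ → ℕ
  | 0 => 0
  | 1 => 1
  | i + 2 => L.getD i 0

theorem getD_mem {L : List ℕ} {i : ℕ} (hi : i < L.length) : L.getD i 0 ∈ L := by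
  rw [List.getD_eq_getElem L 0 hi]
  exact List.getElem_mem hi

theorem lab_inj {L : List ℕ} (hL : L.Nodup) (hp : ∀ l ∈ L, l.Prime) :
    Set.InjOn (lab L) (range (L.length + 2) : Finset ℕ) := by
  intro i hi j hj h
  rw [Finset.mem_coe, Finset.mem_range] at hi hj
  have key : ∀ i < L.length, 2 ≤ L.getD i 0 := fun i hi => (hp _ (getD_mem hi)).two_le
  match i, j with
  | 0, 0 => rfl
  | 0, 1 => exact absurd h (by decide : (0 : ℕ) ≠ 1)
  | 1, 0 => exact absurd h (by decide : (1 : ℕ) ≠ 0)
  | 1, 1 => rfl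
  | 0, j + 2 =>
    have h1 : 0 = L.getD j 0 := h
    have := key j (by omega)
    omega
  | 1, j + 2 =>
    have h1 : 1 = L.getD j 0 := h
    have := key j (by omega)
    omega
  | i + 2, 0 =>
    have h1 : L.getD i 0 = 0 := h
    have := key i (by omega)
    omega
  | i + 2, 1 =>
    have h1 : L.getD i 0 = 1 := h
    have := key i (by omega)
    omega
  | i + 2, j + 2 =>
    have h1 : L.getD i 0 = L.getD j 0 := h
    have hi' : i < L.length := by omega
    have hj' : j < L.length := by omega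
    rw [List.getD_eq_getElem L 0 hi', List.getD_eq_getElem L 0 hj'] at h1
    rw [(List.Nodup.getElem_inj_iff hL).1 h1]

theorem lab_image (L : List ℕ) : (Ico 2 (L.length + 2)).image (lab L) = L.toFinset := by
  ext x
  rw [Finset.mem_image, List.mem_toFinset, List.mem_iff_getElem]
  constructor
  · rintro ⟨i, hi, rfl⟩
    rw [Finset.mem_Ico] at hi
    obtain ⟨k, rfl⟩ : ∃ k, i = k + 2 := ⟨i - 2, by omega⟩
    exact ⟨k, by omega, (List.getD_eq_getElem L 0 (by omega)).symm⟩
  · rintro ⟨k, hk, rfl⟩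
    exact ⟨k + 2, Finset.mem_Ico.2 ⟨by omega, by omega⟩, List.getD_eq_getElem L 0 hk⟩

theorem sum_Ico_two (n : ℕ) : ∑ i ∈ Ico 2 (n + 2), 2 ^ i + 4 = 2 ^ (n + 2) := by
  induction n with
  | zero => simp
  | succ n ih =>
    rw [Finset.sum_Ico_succ_top (by omega)]
    have h : 2 ^ (n + 1 + 2) = 2 ^ (n + 2) + 2 ^ (n + 2) := by ring
    rw [h]
    omega

theorem fs_a (n : ℕ) : fs (2 ^ (n + 2) - 4) = Ico 2 (n + 2) := by
  have h := sum_Ico_two n
  have h1 : 2 ^ (n + 2) - 4 = ∑ i ∈ Ico 2 (n + 2), 2 ^ i := by omega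
  rw [h1, fs_sum]

theorem fs_b (n : ℕ) : fs (2 ^ (n + 2) - 3) = insert 0 (Ico 2 (n + 2)) := by
  have h := sum_Ico_two n
  have h0 : (0 : ℕ) ∉ Ico 2 (n + 2) := by simp
  have h1 : 2 ^ (n + 2) - 3 = ∑ i ∈ insert 0 (Ico 2 (n + 2)), 2 ^ i := by
    rw [Finset.sum_insert h0, pow_zero]
    omega
  rw [h1, fs_sum]

theorem fs_c (n : ℕ) : fs (2 ^ (n + 2) - 2) = insert 1 (Ico 2 (n + 2)) := by
  have h := sum_Ico_two n
  have h0 : (1 : ℕ) ∉ Ico 2 (n + 2) := by simp
  have h1 : 2 ^ (n + 2) - 2 = ∑ i ∈ insert 1 (Ico 2 (n + 2)), 2 ^ i := by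
    rw [Finset.sum_insert h0, pow_one]
    omega
  rw [h1, fs_sum]

theorem fs_d (n : ℕ) : fs (2 ^ (n + 2) - 1) = insert 0 (insert 1 (Ico 2 (n + 2))) := by
  have h := sum_Ico_two n
  have h0 : (1 : ℕ) ∉ Ico 2 (n + 2) := by simp
  have h00 : (0 : ℕ) ∉ insert 1 (Ico 2 (n + 2)) := by simp
  have h1 : 2 ^ (n + 2) - 1 = ∑ i ∈ insert 0 (insert 1 (Ico 2 (n + 2))), 2 ^ i := by
    rw [Finset.sum_insert h00, Finset.sum_insert h0, pow_zero, pow_one]
    omega
  rw [h1, fs_sum]

/-- symbols of positions -/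
def sbP (δ : ℤ) (e : ℕ → Bool) (L : List ℕ) (i j : ℕ) : Bool := sbL δ e (lab L i) (lab L j)

/-- signs of positions -/
def sgP (δ : ℤ) (L : List ℕ) (i : ℕ) : Bool := sgL δ (lab L i)

theorem good_all {δ : ℤ} (hδ : δ = 8 ∨ δ = -8) (e : ℕ → Bool) {L : List ℕ} (hL : L.Nodup)
    (hp : ∀ l ∈ L, l.Prime) :
    GoodQ (L.length + 2) (sbP δ e L) (sgP δ L) (L.length + 2)
      (mkQ (decide (δ = 8)) L L (L.map e) 4
        (Q.cons 2 (Nat.add (Nat.mul 4 (mskn (L.map e))) 1) false
          (Q.cons 1 (Nat.add (Nat.mul 4 (msk (L.map e))) 2) false Q.nil))) := by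
  have key : ∀ i < L.length, 2 ≤ L.getD i 0 := fun i hi => (hp _ (getD_mem hi)).two_le
  have h2 : L.length + 2 = 2 + L.length := by omega
  have h4 : (4 : ℕ) = 2 ^ 2 := rfl
  have h : GoodQ (L.length + 2) (sbP δ e L) (sgP δ L) (2 + L.length)
      (mkQ (decide (δ = 8)) L L (L.map e) (2 ^ 2)
        (Q.cons 2 (Nat.add (Nat.mul 4 (mskn (L.map e))) 1) false
          (Q.cons 1 (Nat.add (Nat.mul 4 (msk (L.map e))) 2) false Q.nil))) := by
    apply mkQ_good
    · refine ⟨rfl, ?_, ?_, rfl, ?_, ?_, trivial⟩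
      · intro j hj hj1
        match j with
        | 0 => exact row_zero _ true
        | 1 => exact absurd rfl hj1
        | j + 2 =>
          rw [row_ss _ _ _ (by norm_num), mskn_testBit e L j (by omega)]
          have hk := key j (by omega)
          have h5 : lab L (j + 2) = L.getD j 0 := rfl
          have h6 : lab L 1 = 1 := rfl
          unfold sbP sbL
          rw [h5, h6, if_neg (by norm_num), if_pos rfl, if_neg (by omega)]
      · unfold sgP sgL lab
        rw [if_pos (Or.inr rfl)]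
      · intro j hj hj1
        match j with
        | 0 => exact absurd rfl hj1
        | 1 => exact row_one _ false
        | j + 2 =>
          rw [row_ss _ _ _ (by norm_num), msk_testBit e L j (by omega)]
          have hk := key j (by omega)
          have h5 : lab L (j + 2) = L.getD j 0 := rfl
          have h6 : lab L 0 = 0 := rfl
          unfold sbP sbL
          rw [h5, h6, if_pos rfl, if_neg (by omega)]
      · unfold sgP sgL lab
        rw [if_pos (Or.inl rfl)]
    · intro i hi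
      have hki := key i hi
      have hlab : lab L (2 + i) = L.getD i 0 := by
        rw [add_comm]
        rfl
      constructor
      · intro j hj hji
        unfold sbP sbL
        rw [hlab, if_neg (by omega), if_neg (by omega)]
        match j with
        | 0 =>
          rw [row_zero]
          exact (if_pos rfl).symm
        | 1 =>
          rw [row_one]
          have h5 : lab L 1 = 1 := rfl
          rw [h5, if_neg (by norm_num), if_pos rfl]
        | j + 2 =>
          have hj' : j < L.length := by omega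
          have hkj := key j hj'
          rw [row_ss _ _ _ (row_lt _), mskL_testBit _ L j hj']
          have h5 : lab L (j + 2) = L.getD j 0 := rfl
          rw [h5, if_neg (by omega), if_neg (by omega)]
          apply sv_eq hδ (hp _ (getD_mem hi)) (hp _ (getD_mem hj'))
          intro h6
          rw [List.getD_eq_getElem L 0 hi, List.getD_eq_getElem L 0 hj'] at h6
          have := (List.Nodup.getElem_inj_iff hL).1 h6
          omega
      · unfold sgP
        rw [hlab]
        exact sgk_eq hδ (hp _ (getD_mem hi))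
  rw [← h4] at h
  rw [← h2] at h
  exact h

theorem mask_all {δ : ℤ} (hδ : δ = 8 ∨ δ = -8) {L : List ℕ} (hp : ∀ l ∈ L, l.Prime) :
    ∀ j < L.length + 2, (Nat.mul 4 (mskL (sgk (decide (δ = 8))) L)).testBit j = sgP δ L j := by
  intro j hj
  have h0 : Nat.mul 4 (mskL (sgk (decide (δ = 8))) L) = 4 * mskL (sgk (decide (δ = 8))) L := rfl
  match j with
  | 0 =>
    rw [h0, Nat.testBit_zero]
    have h1 : 4 * mskL (sgk (decide (δ = 8))) L % 2 = 0 := by omega
    rw [h1]
    unfold sgP sgL lab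
    rw [if_pos (Or.inl rfl)]
    rfl
  | 1 =>
    rw [h0, Nat.testBit_succ, Nat.testBit_zero]
    have h1 : 4 * mskL (sgk (decide (δ = 8))) L / 2 % 2 = 0 := by omega
    rw [h1]
    unfold sgP sgL lab
    rw [if_pos (Or.inr rfl)]
    rfl
  | j + 2 =>
    have h1 := row_ss (mskL (sgk (decide (δ = 8))) L) 0 j (by norm_num)
    have h2 : Nat.add (Nat.mul 4 (mskL (sgk (decide (δ = 8))) L)) 0 =
      Nat.mul 4 (mskL (sgk (decide (δ = 8))) L) := rfl
    rw [h2] at h1
    rw [h1, mskL_testBit _ L j (by omega)]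
    exact sgk_eq hδ (hp _ (getD_mem (by omega)))

/-- the value at a mask -/
theorem tabl_eq {δ : ℤ} (hδ : δ = 8 ∨ δ = -8) (e : ℕ → Bool) {L : List ℕ} (hL : L.Nodup)
    (hp : ∀ l ∈ L, l.Prime) {A : ℕ} (hA : A < 2 ^ (L.length + 2)) :
    (tb (tabl (decide (δ = 8)) L (L.map e)) A).toNat =
      U (sbL δ e) (sgL δ) ((fs A).image (lab L)) := by
  have h1 := loop_table (L.length + 2) (sbP δ e L) (sgP δ L) (good_all hδ e hL hp)
    (mask_all hδ hp) hA
  have h2 : tabl (decide (δ = 8)) L (L.map e) = loop (L.length + 2)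
      (mkQ (decide (δ = 8)) L L (L.map e) 4
        (Q.cons 2 (Nat.add (Nat.mul 4 (mskn (L.map e))) 1) false
          (Q.cons 1 (Nat.add (Nat.mul 4 (msk (L.map e))) 2) false Q.nil))) 0 0 false
      (W (L.length + 2) (Nat.mul 4 (mskL (sgk (decide (δ = 8))) L))) := by
    unfold tabl
    rw [cnt_eq]
  have h3 : tb (tabl (decide (δ = 8)) L (L.map e)) A =
      (tabl (decide (δ = 8)) L (L.map e)).testBit A := tb_eq _ _
  rw [h3, h2, h1]
  symm
  apply U_congr
  · refine (lab_inj hL hp).mono ?_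
    exact_mod_cast lt_two_pow_iff.1 hA
  · intro b _ l _ _
    rfl
  · intro b _
    rfl

theorem U_lt (sb : ℕ → ℕ → Bool) (sg : ℕ → Bool) (A : Finset ℕ) : U sb sg A < 2 := by
  rw [U_eq]
  exact Nat.mod_lt _ (by norm_num)

/-- the bit of `L` by `RT` -/
theorem bit_RT (δ : ℤ) (hδ : δ = 8 ∨ δ = -8) (e : ℕ → Bool) (L : List ℕ) (hL : L.Nodup)
    (hp : ∀ l ∈ L, l.Prime) :
    bit δ e L.toFinset % 2 = (if RT δ L (L.map e) = true then 1 else 0) := by
  have h4 : 4 ≤ 2 ^ (L.length + 2) := by
    have := sum_Ico_two L.length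
    omega
  have ea := tabl_eq hδ e hL hp (A := 2 ^ (L.length + 2) - 4) (by omega)
  have eb := tabl_eq hδ e hL hp (A := 2 ^ (L.length + 2) - 3) (by omega)
  have ec := tabl_eq hδ e hL hp (A := 2 ^ (L.length + 2) - 2) (by omega)
  have ed := tabl_eq hδ e hL hp (A := 2 ^ (L.length + 2) - 1) (by omega)
  have l0 : lab L 0 = 0 := rfl
  have l1 : lab L 1 = 1 := rfl
  rw [fs_a, lab_image] at ea
  rw [fs_b, Finset.image_insert, lab_image, l0] at eb
  rw [fs_c, Finset.image_insert, lab_image, l1] at ec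
  rw [fs_d, Finset.image_insert, Finset.image_insert, lab_image, l0, l1] at ed
  unfold bit
  rw [← ea, ← eb, ← ec, ← ed]
  have hRT : RT δ L (L.map e) =
      xor (tb (tabl (decide (δ = 8)) L (L.map e)) (2 ^ (L.length + 2) - 4) &&
        tb (tabl (decide (δ = 8)) L (L.map e)) (2 ^ (L.length + 2) - 1))
      (tb (tabl (decide (δ = 8)) L (L.map e)) (2 ^ (L.length + 2) - 3) &&
        tb (tabl (decide (δ = 8)) L (L.map e)) (2 ^ (L.length + 2) - 2)) := by
    unfold RT fin
    rw [d8_eq hδ, cnt_eq]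
    rfl
  rw [hRT]
  generalize tb (tabl (decide (δ = 8)) L (L.map e)) (2 ^ (L.length + 2) - 4) = a
  generalize tb (tabl (decide (δ = 8)) L (L.map e)) (2 ^ (L.length + 2) - 3) = b
  generalize tb (tabl (decide (δ = 8)) L (L.map e)) (2 ^ (L.length + 2) - 2) = c
  generalize tb (tabl (decide (δ = 8)) L (L.map e)) (2 ^ (L.length + 2) - 1) = d
  cases a <;> cases b <;> cases c <;> cases d <;> rfl

end Pool.Agent.N348.LE
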