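import Pool.Agent.N367.LE.Stm

/-!
A version of the bit for evaluation by the kernel: definitions.
-/

set_option autoImplicit false

namespace Pool.Agent.N348.LE

/-- items: power of two, row, sign -/
inductive Q : Type
  | nil : Q
  | cons (pw row : ℕ) (s : Bool) (rest : Q) : Q

/-- bit -/
noncomputable def tb (T i : ℕ) : Bool := Nat.beq (Nat.land 1 (Nat.shiftRight T i)) 1

/-- the table of the submasks of `Y` -/
noncomputable def W (t Y : ℕ) : ℕ :=
  Nat.rec 1 (fun i ih => Bool.rec ih (Nat.mul ih (Nat.succ (Nat.pow 2 (Nat.pow 2 i))))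
    (Nat.beq (Nat.land 1 (Nat.shiftRight Y i)) 1)) t

/-- one step: the mask `B` is pushed to its supermasks -/
noncomputable def stepN (t B x : ℕ) (p : Bool) (T : ℕ) : ℕ :=
  Bool.rec T (Bool.rec T (Nat.xor T (Nat.shiftLeft (Nat.xor 1 (W t (Nat.xor x (Nat.land x B)))) B))
    (Nat.beq (Nat.land 1 (Nat.shiftRight T B)) 1)) p

/-- all masks in increasing order -/
noncomputable def loop (t : ℕ) (q : Q) : ℕ → ℕ → Bool → ℕ → ℕ :=
  Q.rec (fun B x p T => stepN t B x p T)
    (fun pw row s _ ih => fun B x p T =>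
      ih (Nat.add B pw) (Nat.xor x row) (Bool.rec s (!s) p) (ih B x p T)) q

/-- the component `b` at `l` -/
noncomputable def sv (d8 : Bool) (b l : ℕ) : Bool :=
  Bool.rec (Nat.beq (Nat.mod (Nat.pow l (Nat.div b 2)) b) (Nat.sub b 1))
    (Bool.rec (Bool.rec (Nat.beq (Nat.mod l 8) 7) true (Nat.beq (Nat.mod l 8) 5))
      (Bool.rec (Nat.beq (Nat.mod l 8) 5) true (Nat.beq (Nat.mod l 8) 3)) d8) (Nat.beq b 2)

/-- the sign of the component `b` -/
noncomputable def sgk (d8 : Bool) (b : ℕ) : Bool :=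
  Bool.rec (Nat.beq (Nat.mod b 4) 3) (!d8) (Nat.beq b 2)

/-- mask of a function on a list -/
noncomputable def mskL (f : ℕ → Bool) (L : List ℕ) : ℕ :=
  List.rec 0 (fun l _ ih => Nat.add (Nat.mul 2 ih) (Bool.rec 0 1 (f l))) L

/-- mask of a list -/
noncomputable def msk (L : List Bool) : ℕ :=
  List.rec 0 (fun l _ ih => Nat.add (Nat.mul 2 ih) (Bool.rec 0 1 l)) L

/-- mask of the negated list -/
noncomputable def mskn (L : List Bool) : ℕ :=
  List.rec 0 (fun l _ ih => Nat.add (Nat.mul 2 ih) (Bool.rec 1 0 l)) L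

/-- the items of the primes -/
noncomputable def mkQ (d8 : Bool) (M : List ℕ) (L : List ℕ) : List Bool → ℕ → Q → Q :=
  List.rec (fun _ _ acc => acc)
    (fun l _ ih => fun ε pw acc =>
      List.rec acc (fun e ε' _ => ih ε' (Nat.mul 2 pw)
        (Q.cons pw (Nat.add (Nat.mul 4 (mskL (sv d8 l) M)) (Bool.rec 2 1 e)) (sgk d8 l) acc)) ε) L

/-- number of labels -/
noncomputable def cnt (L : List ℕ) : ℕ := List.rec 2 (fun _ _ ih => Nat.succ ih) L

/-- the table of `U` -/
noncomputable def tabl (d8 : Bool) (L : List ℕ) (ε : List Bool) : ℕ :=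
  loop (cnt L) (mkQ d8 L L ε 4 (Q.cons 2 (Nat.add (Nat.mul 4 (mskn ε)) 1) false
    (Q.cons 1 (Nat.add (Nat.mul 4 (msk ε)) 2) false Q.nil))) 0 0 false
    (W (cnt L) (Nat.mul 4 (mskL (sgk d8) L)))

/-- the bit from the table -/
noncomputable def fin (t T : ℕ) : Bool :=
  xor (tb T (Nat.sub (Nat.pow 2 t) 4) && tb T (Nat.sub (Nat.pow 2 t) 1))
    (tb T (Nat.sub (Nat.pow 2 t) 3) && tb T (Nat.sub (Nat.pow 2 t) 2))

/-- the bit for the set `L` with the values `ε` of `e` on `L` -/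
noncomputable def RT (δ : ℤ) (L : List ℕ) (ε : List Bool) : Bool :=
  fin (cnt L) (tabl (Int.rec (fun _ => true) (fun _ => false) δ) L ε)

end Pool.Agent.N348.LE
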