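import Pool.Agent.N348.LE.Bit

/-!
A version of the bit for evaluation by the kernel: samples.
-/

set_option autoImplicit false

namespace Pool.Agent.N348.LE

open Finset Pool.Agent.N367.LE

/-- all lists of signs -/
def pats : ℕ → List (List Bool)
  | 0 => [[]]
  | n + 1 => (pats n).flatMap fun l => [false :: l, true :: l]

/-- `RT` for all lists of signs -/
noncomputable def RTs (δ : ℤ) (L : List ℕ) : List Bool := (pats L.length).map (RT δ L)

theorem sample1 : RTs 8 [3, 5, 7, 11] = [false, false, false, false, false, true, false, false,
    false, false, true, false, false, false, false, false] := by decide +kernel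

theorem sample2 : RTs (-8) [3, 5, 7, 11] = [false, false, false, false, false, true, false, false,
    false, false, true, false, false, false, false, false] := by decide +kernel

theorem sample3 : RTs (-8) [2, 3, 5, 7] = [true, true, true, false, true, false, false, true,
    true, false, false, true, false, true, true, true] := by decide +kernel

theorem sample4 : RT (-8) [2, 3, 5, 7, 11] [true, false, true, false, true] = true ∨
    RT (-8) [2, 3, 5, 7, 11] [true, false, true, false, true] = false := by decide +kernel

theorem sample5 (e : ℕ → Bool) (h3 : e 3 = true) (h5 : e 5 = false) (h7 : e 7 = true)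
    (h11 : e 11 = false) : bit 8 e {3, 5, 7, 11} % 2 = 1 := by
  have h := bit_RT 8 (Or.inl rfl) e [3, 5, 7, 11] (by decide) (by
    intro l hl
    simp only [List.mem_cons, List.not_mem_nil, or_false] at hl
    rcases hl with rfl | rfl | rfl | rfl <;> norm_num)
  have h1 : ([3, 5, 7, 11] : List ℕ).toFinset = {3, 5, 7, 11} := by decide
  have h2 : ([3, 5, 7, 11] : List ℕ).map e = [true, false, true, false] := by
    simp only [List.map_cons, List.map_nil, h3, h5, h7, h11]
  have h6 : RT 8 [3, 5, 7, 11] [true, false, true, false] = true := by decide +kernel
  rw [h1, h2, h6] at h
  exact h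

end Pool.Agent.N348.LE
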