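import Pool.Agent.N348.LE.RT

/-!
A version of the bit for evaluation by the kernel: the table of `U`.
-/

set_option autoImplicit false

namespace Pool.Agent.N348.LE

open Finset Pool.Agent.N367.LE

/-! ### sets of bits -/

/-- the set of the bits of `n` -/
def fs (n : ℕ) : Finset ℕ := n.bitIndices.toFinset

theorem mem_fs {i n : ℕ} : i ∈ fs n ↔ n.testBit i = true := by
  unfold fs
  rw [List.mem_toFinset, Nat.mem_bitIndices]

theorem sum_fs (n : ℕ) : ∑ i ∈ fs n, 2 ^ i = n := sum_toFinset_bitIndices_two_pow n

theorem fs_sum (s : Finset ℕ) : fs (∑ i ∈ s, 2 ^ i) = s := toFinset_bitIndices_sum_two_pow s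

theorem fs_inj {a b : ℕ} (h : fs a = fs b) : a = b := by rw [← sum_fs a, ← sum_fs b, h]

theorem fs_zero : fs 0 = ∅ := by
  have := fs_sum ∅
  rwa [Finset.sum_empty] at this

theorem fs_add {a b : ℕ} (h : Disjoint (fs a) (fs b)) : fs (a + b) = fs a ∪ fs b := by
  have h1 := fs_sum (fs a ∪ fs b)
  rwa [Finset.sum_union h, sum_fs, sum_fs] at h1

theorem fs_two_pow (i : ℕ) : fs (2 ^ i) = {i} := by
  have := fs_sum {i}
  rwa [Finset.sum_singleton] at this

theorem fs_sub {a b : ℕ} (h : fs b ⊆ fs a) : b ≤ a ∧ fs (a - b) = fs a \ fs b := by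
  have h1 : b + ∑ i ∈ fs a \ fs b, 2 ^ i = a := by
    have h2 := Finset.sum_sdiff (f := fun i => 2 ^ i) h
    rw [sum_fs b, sum_fs a] at h2
    omega
  have h3 : a - b = ∑ i ∈ fs a \ fs b, 2 ^ i := by omega
  exact ⟨by omega, by rw [h3, fs_sum]⟩

theorem lt_of_ssub {a b : ℕ} (h : fs b ⊂ fs a) : b < a := by
  refine lt_of_le_of_ne (fs_sub h.1).1 ?_
  rintro rfl
  exact h.ne rfl

theorem lt_two_pow_iff {n t : ℕ} : n < 2 ^ t ↔ fs n ⊆ range t := by
  constructor
  · intro h i hi
    rw [Finset.mem_range]
    by_contra h1
    have h2 := Nat.testBit_lt_two_pow (lt_of_lt_of_le h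
      (Nat.pow_le_pow_right (by norm_num) (not_lt.1 h1)))
    rw [mem_fs, h2] at hi
    exact absurd hi (by simp)
  · intro h
    refine Nat.lt_pow_two_of_testBit n fun i hi => ?_
    by_contra h1
    rw [Bool.not_eq_false, ← mem_fs] at h1
    have := Finset.mem_range.1 (h h1)
    omega

theorem tb_eq (T i : ℕ) : Nat.beq (Nat.land 1 (Nat.shiftRight T i)) 1 = T.testBit i := by
  have h1 : Nat.land 1 (Nat.shiftRight T i) = (T >>> i) % 2 := Nat.one_and_eq_mod_two _
  rw [h1]
  have h2 : T.testBit i = decide ((T >>> i) % 2 = 1) := by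
    rw [Nat.testBit_eq_decide_div_mod_eq, Nat.shiftRight_eq_div_pow]
  rw [h2]
  rcases Nat.mod_two_eq_zero_or_one (T >>> i) with h | h <;> rw [h] <;> rfl

/-! ### tables of submasks -/

theorem W_eq (t Y : ℕ) :
    W t Y = ∏ i ∈ (range t).filter (fun i => Y.testBit i = true), (1 + 2 ^ 2 ^ i) := by
  induction t with
  | zero => rfl
  | succ t ih =>
    have h1 : W (t + 1) Y = Bool.rec (W t Y) (W t Y * (2 ^ 2 ^ t + 1)) (Y.testBit t) := by
      rw [← tb_eq]
      rfl
    rw [h1, Finset.range_add_one, Finset.filter_insert]
    cases h : Y.testBit t with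
    | false =>
      simp only [Bool.false_eq_true, if_false]
      exact ih
    | true =>
      simp only [if_true]
      rw [Finset.prod_insert (by simp), ← ih]
      ring

theorem fs_W (t Y : ℕ) : fs (W t Y) =
    ((range t).filter (fun i => Y.testBit i = true)).powerset.image (fun s => ∑ i ∈ s, 2 ^ i) := by
  classical
  have h1 : W t Y = ∑ c ∈ ((range t).filter (fun i => Y.testBit i = true)).powerset.image
      (fun s => ∑ i ∈ s, 2 ^ i), 2 ^ c := by
    rw [W_eq, Finset.prod_one_add, Finset.sum_image]
    · refine Finset.sum_congr rfl fun s _ => ?_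
      rw [Finset.prod_pow_eq_pow_sum]
    · intro s _ s' _ h
      rw [← fs_sum s, ← fs_sum s']
      exact congrArg fs h
  rw [h1, fs_sum]

theorem testBit_W {t Y c : ℕ} : (W t Y).testBit c = true ↔
    ∀ i ∈ fs c, i < t ∧ Y.testBit i = true := by
  rw [← mem_fs, fs_W, Finset.mem_image]
  constructor
  · rintro ⟨s, hs, rfl⟩ i hi
    rw [fs_sum] at hi
    rw [Finset.mem_powerset] at hs
    have := hs hi
    rwa [Finset.mem_filter, Finset.mem_range] at this
  · intro h
    refine ⟨fs c, ?_, sum_fs c⟩
    rw [Finset.mem_powerset]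
    intro i hi
    rw [Finset.mem_filter, Finset.mem_range]
    exact h i hi

/-! ### the function `U` -/

theorem U_congr (sb sb' : ℕ → ℕ → Bool) (sg sg' : ℕ → Bool) (f : ℕ → ℕ) (A : Finset ℕ)
    (hf : Set.InjOn f A) (h1 : ∀ b ∈ A, ∀ l ∈ A, b ≠ l → sb (f b) (f l) = sb' b l)
    (h2 : ∀ b ∈ A, sg (f b) = sg' b) : U sb sg (A.image f) = U sb' sg' A := by
  classical
  induction A using Finset.strongInduction with
  | H A ih =>
    rw [U_eq, U_eq]
    congr 1
    have e1 : (∀ b ∈ A.image f, sg b = true) ↔ ∀ b ∈ A, sg' b = true := by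
      constructor
      · intro h b hb
        rw [← h2 b hb]
        exact h _ (Finset.mem_image_of_mem f hb)
      · intro h b hb
        obtain ⟨a, ha, rfl⟩ := Finset.mem_image.1 hb
        rw [h2 a ha]
        exact h a ha
    have e2 : (A.image f).ssubsets = A.ssubsets.image (fun B => B.image f) := by
      ext B
      rw [Finset.mem_ssubsets, Finset.mem_image]
      constructor
      · intro hB
        refine ⟨A.filter (fun a => f a ∈ B), ?_, ?_⟩
        · rw [Finset.mem_ssubsets, Finset.ssubset_iff_subset_ne]
          refine ⟨Finset.filter_subset _ _, fun h => hB.2 fun x hx => ?_⟩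
          obtain ⟨a, ha, rfl⟩ := Finset.mem_image.1 hx
          rw [← h, Finset.mem_filter] at ha
          exact ha.2
        · ext x
          rw [Finset.mem_image]
          constructor
          · rintro ⟨a, ha, rfl⟩
            exact (Finset.mem_filter.1 ha).2
          · intro hx
            obtain ⟨a, ha, rfl⟩ := Finset.mem_image.1 (hB.1 hx)
            exact ⟨a, Finset.mem_filter.2 ⟨ha, hx⟩, rfl⟩
      · rintro ⟨B', hB', rfl⟩
        rw [Finset.mem_ssubsets] at hB'
        refine ⟨Finset.image_subset_image hB'.1, fun h => hB'.2 fun a ha => ?_⟩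
        obtain ⟨a', ha', h3⟩ := Finset.mem_image.1 (h (Finset.mem_image_of_mem f ha))
        rwa [← hf (hB'.1 ha') ha h3]
    have e3 : ∑ B ∈ (A.image f).ssubsets, (if okB sb sg (A.image f) B then U sb sg B else 0) =
        ∑ B ∈ A.ssubsets, if okB sb' sg' A B then U sb' sg' B else 0 := by
      rw [e2, Finset.sum_image]
      · refine Finset.sum_congr rfl fun B hB => ?_
        rw [Finset.mem_ssubsets] at hB
        have hfB : Set.InjOn f B := hf.mono (by exact_mod_cast hB.1)
        have i1 : U sb sg (B.image f) = U sb' sg' B := ih B hB hfB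
          (fun b hb l hl => h1 b (hB.1 hb) l (hB.1 hl)) (fun b hb => h2 b (hB.1 hb))
        have i2 : oddB sg (B.image f) ↔ oddB sg' B := by
          unfold oddB
          rw [Finset.filter_image, Finset.card_image_of_injOn (hfB.mono (by
            intro x hx
            exact (Finset.mem_filter.1 (by exact_mod_cast hx)).1))]
          have : B.filter (fun a => sg (f a) = true) = B.filter (fun b => sg' b = true) := by
            refine Finset.filter_congr fun b hb => ?_
            rw [h2 b (hB.1 hb)]
          rw [this]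
        have i3 : (∀ l ∈ A.image f \ B.image f, neB sb (B.image f) l) ↔
            ∀ l ∈ A \ B, neB sb' B l := by
          have i4 : ∀ l ∈ A \ B, (neB sb (B.image f) (f l) ↔ neB sb' B l) := by
            intro l hl
            rw [Finset.mem_sdiff] at hl
            unfold neB
            rw [Finset.filter_image, Finset.card_image_of_injOn (hfB.mono (by
              intro x hx
              exact (Finset.mem_filter.1 (by exact_mod_cast hx)).1))]
            have : B.filter (fun a => sb (f a) (f l) = true) =
                B.filter (fun b => sb' b l = true) := by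
              refine Finset.filter_congr fun b hb => ?_
              rw [h1 b (hB.1 hb) l hl.1 (fun h => hl.2 (h ▸ hb))]
            rw [this]
          constructor
          · intro h l hl
            rw [← i4 l hl]
            refine h _ ?_
            rw [Finset.mem_sdiff] at hl ⊢
            refine ⟨Finset.mem_image_of_mem f hl.1, fun h5 => hl.2 ?_⟩
            obtain ⟨a, ha, h6⟩ := Finset.mem_image.1 h5
            rwa [← hf (hB.1 ha) hl.1 h6]
          · intro h x hx
            rw [Finset.mem_sdiff] at hx
            obtain ⟨a, ha, rfl⟩ := Finset.mem_image.1 hx.1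
            have hal : a ∈ A \ B := Finset.mem_sdiff.2
              ⟨ha, fun h5 => hx.2 (Finset.mem_image_of_mem f h5)⟩
            rw [i4 a hal]
            exact h a hal
        have i5 : okB sb sg (A.image f) (B.image f) ↔ okB sb' sg' A B := by
          unfold okB
          rw [i2, i3]
        by_cases h5 : okB sb' sg' A B
        · rw [if_pos h5, if_pos (i5.2 h5), i1]
        · rw [if_neg h5, if_neg (fun h6 => h5 (i5.1 h6))]
      · intro B hB B' hB' h
        have hB1 : B ⊂ A := Finset.mem_ssubsets.1 (by exact_mod_cast hB)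
        have hB2 : B' ⊂ A := Finset.mem_ssubsets.1 (by exact_mod_cast hB')
        have h' : B.image f = B'.image f := h
        ext x
        constructor
        · intro hx
          obtain ⟨a, ha, h3⟩ := Finset.mem_image.1 (h' ▸ Finset.mem_image_of_mem f hx)
          rwa [← hf (hB2.1 ha) (hB1.1 hx) h3]
        · intro hx
          obtain ⟨a, ha, h3⟩ := Finset.mem_image.1 (h'.symm ▸ Finset.mem_image_of_mem f hx)
          rwa [← hf (hB1.1 ha) (hB2.1 hx) h3]
    rw [e3]
    by_cases h5 : ∀ b ∈ A, sg' b = true
    · rw [if_pos h5, if_pos (e1.2 h5)]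
    · rw [if_neg h5, if_neg (fun h6 => h5 (e1.1 h6))]

/-! ### the invariant of the loop -/

section inv

variable (t : ℕ) (sb : ℕ → ℕ → Bool) (sg : ℕ → Bool)

/-- the contribution of `b` to `A` -/
def wt (b A : ℕ) : ℕ := if fs b ⊂ fs A ∧ okB sb sg (fs A) (fs b) then U sb sg (fs b) else 0

/-- the initial value at `A` -/
def c0 (A : ℕ) : ℕ := if ∀ b ∈ fs A, sg b = true then 1 else 0

/-- the masks below `k` have been processed -/
def Inv (k T : ℕ) : Prop :=
  ∀ A < 2 ^ t, (T.testBit A).toNat = (c0 sg A + ∑ b ∈ range k, wt sb sg b A) % 2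

theorem sum_wt (A : ℕ) {k : ℕ} (hk : A ≤ k) :
    (c0 sg A + ∑ b ∈ range k, wt sb sg b A) % 2 = U sb sg (fs A) := by
  classical
  rw [U_eq]
  have e1 : ∑ b ∈ range k, wt sb sg b A =
      ∑ B ∈ (fs A).ssubsets, if okB sb sg (fs A) B then U sb sg B else 0 := by
    have e2 : (fs A).ssubsets = ((range k).filter (fun b => fs b ⊂ fs A)).image fs := by
      ext B
      rw [Finset.mem_ssubsets, Finset.mem_image]
      constructor
      · intro hB
        refine ⟨∑ i ∈ B, 2 ^ i, ?_, fs_sum B⟩
        rw [Finset.mem_filter, fs_sum, Finset.mem_range]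
        refine ⟨lt_of_lt_of_le (lt_of_ssub (by rwa [fs_sum])) hk, hB⟩
      · rintro ⟨b, hb, rfl⟩
        exact (Finset.mem_filter.1 hb).2
    rw [e2, Finset.sum_image (fun a _ b _ h => fs_inj h), Finset.sum_filter]
    refine Finset.sum_congr rfl fun b _ => ?_
    unfold wt
    by_cases h1 : fs b ⊂ fs A
    · by_cases h2 : okB sb sg (fs A) (fs b)
      · rw [if_pos ⟨h1, h2⟩, if_pos h1, if_pos h2]
      · rw [if_neg (fun h => h2 h.2), if_pos h1, if_neg h2]
    · rw [if_neg (fun h => h1 h.1), if_neg h1]
  rw [e1]
  rfl

theorem toNat_xor (a b : Bool) : (a ^^ b).toNat = (a.toNat + b.toNat) % 2 := by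
  cases a <;> cases b <;> rfl

/-- `x` is the row of `B` -/
def HX (B x : ℕ) : Prop := ∀ j < t, j ∉ fs B → (x.testBit j = true ↔ neB sb (fs B) j)

/-- `p` is the sign of `B` -/
def HP (B : ℕ) (p : Bool) : Prop := p = true ↔ oddB sg (fs B)

theorem step_inv {B x T : ℕ} {p : Bool} (hB : B < 2 ^ t) (hx : HX t sb B x) (hp : HP sg B p)
    (hT : Inv t sb sg B T) : Inv t sb sg (B + 1) (stepN t B x p T) := by
  intro A hA
  rw [Finset.sum_range_succ, ← add_assoc, Nat.add_mod, ← hT A hA]
  have hTB : (T.testBit B).toNat = U sb sg (fs B) := by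
    rw [hT B hB]
    exact sum_wt sb sg B le_rfl
  have key : ((1 ^^^ W t (x ^^^ (x &&& B))) <<< B).testBit A = true ↔
      fs B ⊂ fs A ∧ ∀ l ∈ fs A \ fs B, neB sb (fs B) l := by
    rw [Nat.testBit_shiftLeft, Bool.and_eq_true, decide_eq_true_eq, Nat.testBit_xor]
    have hY : ∀ i, (x ^^^ (x &&& B)).testBit i = (x.testBit i && !B.testBit i) := by
      intro i
      rw [Nat.testBit_xor, Nat.testBit_and]
      cases x.testBit i <;> cases B.testBit i <;> rfl
    constructor
    · rintro ⟨h1, h2⟩
      have h3 : A - B ≠ 0 := by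
        intro h0
        rw [h0] at h2
        have h4 : (W t (x ^^^ (x &&& B))).testBit 0 = true := by
          rw [testBit_W, fs_zero]
          intro i hi
          exact absurd hi (Finset.notMem_empty i)
        rw [h4] at h2
        exact absurd h2 (by decide)
      have h5 : Nat.testBit 1 (A - B) = false := by
        by_contra h7
        rw [Bool.not_eq_false, ← mem_fs] at h7
        have h8 : fs 1 = {0} := fs_two_pow 0
        rw [h8, Finset.mem_singleton] at h7
        exact h3 h7
      rw [h5, Bool.false_xor, testBit_W] at h2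
      have hdis : Disjoint (fs B) (fs (A - B)) := by
        rw [Finset.disjoint_left]
        intro i hi hi'
        have h6 := (h2 i hi').2
        rw [hY, Bool.and_eq_true, Bool.not_eq_true'] at h6
        rw [mem_fs, h6.2] at hi
        exact absurd hi (by simp)
      have hAB : fs A = fs B ∪ fs (A - B) := by
        rw [← fs_add hdis]
        congr 1
        omega
      constructor
      · rw [Finset.ssubset_iff_subset_ne, hAB]
        refine ⟨Finset.subset_union_left, fun h6 => h3 ?_⟩
        have h7 : fs (A - B) ⊆ fs B := by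
          rw [h6]
          exact Finset.subset_union_right
        have h8 : fs (A - B) = ∅ := by
          rw [← Finset.disjoint_self_iff_empty]
          exact Finset.disjoint_of_subset_left h7 hdis
        have := fs_inj (h8.trans fs_zero.symm)
        exact this
      · intro l hl
        rw [Finset.mem_sdiff, hAB, Finset.mem_union] at hl
        have hl' : l ∈ fs (A - B) := hl.1.resolve_left hl.2
        have h6 := h2 l hl'
        rw [hY, Bool.and_eq_true] at h6
        exact (hx l h6.1 hl.2).1 h6.2.1
    · rintro ⟨h1, h2⟩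
      obtain ⟨h3, h4⟩ := fs_sub h1.1
      refine ⟨h3, ?_⟩
      have h5 : B < A := lt_of_ssub h1
      have h6 : Nat.testBit 1 (A - B) = false := by
        by_contra h7
        rw [Bool.not_eq_false, ← mem_fs] at h7
        have h8 : fs 1 = {0} := fs_two_pow 0
        rw [h8, Finset.mem_singleton] at h7
        omega
      rw [h6, Bool.false_xor, testBit_W]
      intro i hi
      rw [h4, Finset.mem_sdiff] at hi
      have hit : i < t := Finset.mem_range.1 (lt_two_pow_iff.1 hA hi.1)
      refine ⟨hit, ?_⟩
      rw [hY, Bool.and_eq_true, Bool.not_eq_true']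
      refine ⟨(hx i hit hi.2).2 (h2 i (Finset.mem_sdiff.2 hi)), ?_⟩
      by_contra h7
      rw [Bool.not_eq_false, ← mem_fs] at h7
      exact hi.2 h7
  have hstep : stepN t B x p T = if p = true ∧ T.testBit B = true then
      T ^^^ ((1 ^^^ W t (x ^^^ (x &&& B))) <<< B) else T := by
    unfold stepN
    rw [tb_eq]
    cases p with
    | false => rw [if_neg (by simp)]
    | true =>
      cases h : T.testBit B with
      | false => rw [if_neg (by simp)]
      | true =>
        rw [if_pos ⟨rfl, rfl⟩]
        rfl
  rw [hstep]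
  by_cases hc : p = true ∧ T.testBit B = true
  · rw [if_pos hc, Nat.testBit_xor, toNat_xor]
    have hU : U sb sg (fs B) = 1 := by rw [← hTB, hc.2]; rfl
    have hodd : oddB sg (fs B) := hp.1 hc.1
    have e1 : (((1 ^^^ W t (x ^^^ (x &&& B))) <<< B).testBit A).toNat = wt sb sg B A := by
      unfold wt
      by_cases h7 : fs B ⊂ fs A ∧ ∀ l ∈ fs A \ fs B, neB sb (fs B) l
      · rw [key.2 h7, if_pos ⟨h7.1, hodd, h7.2⟩, hU]
        rfl
      · rw [if_neg (fun h8 => h7 ⟨h8.1, h8.2.2⟩)]
        have h9 : ((1 ^^^ W t (x ^^^ (x &&& B))) <<< B).testBit A = false := by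
          rw [← Bool.not_eq_true]
          exact fun h10 => h7 (key.1 h10)
        rw [h9]
        rfl
    rw [e1]
    have h11 := Bool.toNat_lt (T.testBit A)
    rw [Nat.mod_mod_of_dvd _ (dvd_refl 2) |>.symm]
    omega
  · rw [if_neg hc]
    have e1 : wt sb sg B A = 0 := by
      unfold wt
      by_cases h7 : fs B ⊂ fs A ∧ okB sb sg (fs A) (fs B)
      · rw [if_pos h7, ← hTB]
        have hp1 : p = true := hp.2 h7.2.1
        have h8 : T.testBit B = false := by
          rw [← Bool.not_eq_true]
          exact fun h9 => hc ⟨hp1, h9⟩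
        rw [h8]
        rfl
      · rw [if_neg h7]
    rw [e1]
    have h11 := Bool.toNat_lt (T.testBit A)
    omega

/-- the items are right -/
def GoodQ : ℕ → Q → Prop
  | 0, Q.nil => True
  | i + 1, Q.cons pw row s rest => pw = 2 ^ i ∧ (∀ j < t, j ≠ i → row.testBit j = sb i j) ∧
      s = sg i ∧ GoodQ i rest
  | _, _ => False

theorem loop_inv : ∀ (i : ℕ) (q : Q), GoodQ t sb sg i q → ∀ (B x T : ℕ) (p : Bool),
    (∀ j < i, j ∉ fs B) → B + 2 ^ i ≤ 2 ^ t → HX t sb B x → HP sg B p → Inv t sb sg B T →
    Inv t sb sg (B + 2 ^ i) (loop t q B x p T) := by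
  intro i
  induction i with
  | zero =>
    intro q hq B x T p _ hB hx hp hT
    cases q with
    | nil =>
      rw [pow_zero] at hB ⊢
      exact step_inv t sb sg (by omega) hx hp hT
    | cons pw row s rest => exact absurd hq (by simp [GoodQ])
  | succ i ih =>
    intro q hq B x T p hBi hB hx hp hT
    cases q with
    | nil => exact absurd hq (by simp [GoodQ])
    | cons pw row s rest =>
      obtain ⟨h1, h2, h3, h4⟩ := hq
      have hpow : 2 ^ (i + 1) = 2 ^ i + 2 ^ i := by ring
      have hi0 := Nat.two_pow_pos i
      have i1 := ih rest h4 B x T p (fun j hj => hBi j (by omega)) (by omega) hx hp hT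
      have hfs : fs (B + 2 ^ i) = insert i (fs B) := by
        rw [fs_add (by rw [fs_two_pow, Finset.disjoint_singleton_right]; exact hBi i (by omega)),
          fs_two_pow, Finset.union_comm]
        rfl
      have hiB : i ∉ fs B := hBi i (by omega)
      have hx' : HX t sb (B + 2 ^ i) (x ^^^ row) := by
        intro j hj hjn
        rw [hfs, Finset.mem_insert, not_or] at hjn
        rw [Nat.testBit_xor, h2 j hj hjn.1, hfs]
        have h5 := hx j hj hjn.2
        unfold neB at h5 ⊢
        rw [Finset.filter_insert]
        cases hs : sb i j with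
        | false =>
          simp only [Bool.false_eq_true, if_false, Bool.xor_false]
          exact h5
        | true =>
          simp only [if_true, Bool.xor_true]
          rw [Finset.card_insert_of_notMem (fun h6 => hiB (Finset.mem_filter.1 h6).1)]
          rw [Bool.not_eq_true', ← Bool.not_eq_true, h5]
          omega
      have hp' : HP sg (B + 2 ^ i) (Bool.rec s (!s) p) := by
        unfold HP at hp ⊢
        rw [hfs]
        unfold oddB at hp ⊢
        rw [Finset.filter_insert, h3]
        cases hs : sg i with
        | false =>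
          simp only [Bool.false_eq_true, if_false, Bool.not_false]
          rw [← hp]
          cases p <;> simp
        | true =>
          simp only [if_true, Bool.not_true]
          rw [Finset.card_insert_of_notMem (fun h6 => hiB (Finset.mem_filter.1 h6).1)]
          have h7 : (({a ∈ fs B | sg a = true}.card + 1) % 2 = 1) ↔ ¬ (p = true) := by
            rw [hp]
            omega
          rw [h7]
          cases p <;> simp
      have i2 := ih rest h4 (B + 2 ^ i) (x ^^^ row) (loop t rest B x p T) (Bool.rec s (!s) p)
        (fun j hj => by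
          rw [hfs, Finset.mem_insert, not_or]
          exact ⟨by omega, hBi j (by omega)⟩) (by omega) hx' hp' i1
      have h8 : loop t (Q.cons pw row s rest) B x p T =
          loop t rest (B + 2 ^ i) (x ^^^ row) (Bool.rec s (!s) p) (loop t rest B x p T) := by
        rw [← h1]
        rfl
      rw [h8, hpow, ← add_assoc]
      exact i2

/-- the table is right -/
theorem loop_table {q : Q} (hq : GoodQ t sb sg t q) {m : ℕ}
    (hm : ∀ j < t, m.testBit j = sg j) {A : ℕ} (hA : A < 2 ^ t) :
    ((loop t q 0 0 false (W t m)).testBit A).toNat = U sb sg (fs A) := by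
  have h0 : Inv t sb sg 0 (W t m) := by
    intro A hA
    rw [Finset.range_zero, Finset.sum_empty, add_zero]
    unfold c0
    by_cases h : ∀ b ∈ fs A, sg b = true
    · rw [if_pos h]
      have : (W t m).testBit A = true := by
        rw [testBit_W]
        intro i hi
        have hit := Finset.mem_range.1 (lt_two_pow_iff.1 hA hi)
        exact ⟨hit, by rw [hm i hit]; exact h i hi⟩
      rw [this]
      rfl
    · rw [if_neg h]
      have : (W t m).testBit A = false := by
        rw [← Bool.not_eq_true, testBit_W]
        intro h1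
        apply h
        intro i hi
        rw [← hm i (h1 i hi).1]
        exact (h1 i hi).2
      rw [this]
      rfl
  have h1 := loop_inv t sb sg t q hq 0 0 (W t m) false
    (fun j _ => by rw [fs_zero]; exact Finset.notMem_empty j) (by omega)
    (by
      intro j _ _
      rw [fs_zero, Nat.zero_testBit]
      unfold neB
      simp)
    (by
      unfold HP
      rw [fs_zero]
      unfold oddB
      simp) h0 A hA
  rw [h1]
  exact sum_wt sb sg A (by omega)

end inv

end Pool.Agent.N348.LE
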